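import Pool.Agent.TH316.AT.Ex

/-!
# EX-FP: the fixed point for the Parisi equation
-/

set_option autoImplicit false

open MeasureTheory ProbabilityTheory Set Filter Topology

namespace Pool.Agent.TH738.AT

open Pool.TH198.AT Pool.TH316.AT

/-! ### Gaussian facts -/

lemma int_id : Integrable (fun y : ℝ => y) (gaussianReal 0 1) := by
  have h : MemLp (fun y : ℝ => y) 1 (gaussianReal 0 1) := memLp_id_gaussianReal' 1 (by simp)
  exact memLp_one_iff_integrable.1 h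

lemma int_sq : Integrable (fun y : ℝ => y ^ 2) (gaussianReal 0 1) := by
  have h : MemLp (fun y : ℝ => y) 2 (gaussianReal 0 1) := memLp_id_gaussianReal' 2 (by simp)
  exact (memLp_two_iff_integrable_sq (by fun_prop)).1 h

lemma E_sq : ∫ y : ℝ, y ^ 2 ∂(gaussianReal 0 1) = 1 := by
  have h := variance_fun_id_gaussianReal (μ := 0) (v := 1)
  have h' : MemLp (fun y : ℝ => y) 2 (gaussianReal 0 1) := memLp_id_gaussianReal' 2 (by simp)
  rw [variance_eq_sub h'] at h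
  simpa using h

lemma E_abs : ∫ y : ℝ, |y| ∂(gaussianReal 0 1) ≤ 1 := by
  have h1 : ∫ y : ℝ, |y| ∂(gaussianReal 0 1) ≤ ∫ y : ℝ, (1 + y ^ 2) / 2 ∂(gaussianReal 0 1) := by
    apply integral_mono
    · exact int_id.abs
    · exact ((integrable_const 1).add int_sq).div_const 2
    · intro y
      show |y| ≤ (1 + y ^ 2) / 2
      nlinarith [sq_abs y, sq_nonneg (|y| - 1)]
  refine h1.trans (le_of_eq ?_)
  rw [integral_div, integral_add (integrable_const 1) int_sq, E_sq]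
  simp

/-- the distribution function is measurable -/
lemma zt_meas {ζ : ℝ → ℝ} (hζ : IsCdf ζ) : Measurable (zt ζ) := by
  have h1 : Monotone (fun s => ζ (ck s)) := by
    intro s s' h
    apply hζ.1
    · exact ⟨le_max_left _ _, max_le zero_le_one (min_le_right _ _)⟩
    · exact ⟨le_max_left _ _, max_le zero_le_one (min_le_right _ _)⟩
    · exact max_le_max le_rfl (min_le_min h le_rfl)
  have h2 : zt ζ = fun s => if s ≤ 1 then ζ (ck s) else 0 := by
    funext s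
    unfold zt ck
    split_ifs with h
    · rw [min_eq_left h]
    · rfl
  rw [h2]
  exact Measurable.ite measurableSet_Iic h1.measurable measurable_const

lemma zt_bd {ζ : ℝ → ℝ} (hζ : IsCdf ζ) (s : ℝ) : |zt ζ s| ≤ 1 := by
  unfold zt
  split_ifs with h
  · have := hζ.2.1 (max 0 s) ⟨le_max_left _ _, max_le zero_le_one h⟩
    rw [abs_of_nonneg this.1]
    exact this.2
  · simp

lemma zt_zero {ζ : ℝ → ℝ} {s : ℝ} (hs : 1 < s) : zt ζ s = 0 := by
  unfold zt
  rw [if_neg (not_le.2 hs)]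

/-! ### The kernel integrals -/

/-- a weight -/
def Wt (w : ℝ → ℝ) : Prop := Continuous w ∧ Integrable w (gaussianReal 0 1) ∧
  ∫ y, |w y| ∂(gaussianReal 0 1) ≤ 1

lemma wt_one : Wt (fun _ => 1) := ⟨continuous_const, integrable_const 1, by simp⟩

lemma wt_id : Wt (fun y => y) := ⟨continuous_id, int_id, E_abs⟩

/-- the inner expectation -/
noncomputable def IN (β : ℝ) (w : ℝ → ℝ) (g : ℝ → ℝ → ℝ) (t x u : ℝ) : ℝ :=
  E1 (fun y => w y * g (t + u ^ 2) (x + √(2 * β ^ 2) * u * y))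

lemma IN_int {β C : ℝ} {w : ℝ → ℝ} (hw : Wt w) {g : ℝ → ℝ → ℝ} (hg : BC C g) (t x u : ℝ) :
    Integrable (fun y => w y * g (t + u ^ 2) (x + √(2 * β ^ 2) * u * y)) (gaussianReal 0 1) := by
  have hc : Continuous (fun y => g (t + u ^ 2) (x + √(2 * β ^ 2) * u * y)) :=
    hg.1.comp (f := fun y : ℝ => (t + u ^ 2, x + √(2 * β ^ 2) * u * y)) (by fun_prop)
  refine (hw.2.1.norm.mul_const C).mono' (hw.1.mul hc).aestronglyMeasurable ?_
  refine Eventually.of_forall fun y => ?_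
  rw [norm_mul]
  exact mul_le_mul_of_nonneg_left (hg.2 _ _) (norm_nonneg _)

lemma IN_bd {β D : ℝ} {w : ℝ → ℝ} (hw : Wt w) {g : ℝ → ℝ → ℝ} (t x u : ℝ)
    (hg : ∀ y, |g (t + u ^ 2) y| ≤ D) : |IN β w g t x u| ≤ D := by
  have hD : 0 ≤ D := (abs_nonneg _).trans (hg 0)
  unfold IN E1
  have h1 : ‖∫ y, w y * g (t + u ^ 2) (x + √(2 * β ^ 2) * u * y) ∂(gaussianReal 0 1)‖ ≤
      ∫ y, |w y| * D ∂(gaussianReal 0 1) := by
    apply norm_integral_le_of_norm_le (hw.2.1.abs.mul_const D)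
    refine Eventually.of_forall fun y => ?_
    rw [norm_mul]
    exact mul_le_mul_of_nonneg_left (hg _) (abs_nonneg _)
  rw [Real.norm_eq_abs, integral_mul_const] at h1
  refine h1.trans ?_
  nlinarith [hw.2.2]

lemma IN_sub {β C C' : ℝ} {w : ℝ → ℝ} (hw : Wt w) {g g' : ℝ → ℝ → ℝ} (hg : BC C g)
    (hg' : BC C' g') (t x u : ℝ) :
    IN β w g t x u - IN β w g' t x u = IN β w (fun s y => g s y - g' s y) t x u := by
  unfold IN E1
  rw [← integral_sub (IN_int hw hg t x u) (IN_int hw hg' t x u)]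
  congr 1
  funext y
  ring

lemma IN_meas {β C : ℝ} {w : ℝ → ℝ} (hw : Wt w) {g : ℝ → ℝ → ℝ} (hg : BC C g) (t x : ℝ) :
    Measurable (fun u => IN β w g t x u) := by
  have hc : Continuous (fun p : ℝ × ℝ =>
      w p.2 * g (t + p.1 ^ 2) (x + √(2 * β ^ 2) * p.1 * p.2)) := by
    refine (hw.1.comp continuous_snd).mul ?_
    exact hg.1.comp (f := fun p : ℝ × ℝ => (t + p.1 ^ 2, x + √(2 * β ^ 2) * p.1 * p.2))
      (by fun_prop)
  exact (hc.stronglyMeasurable.integral_prod_right (ν := gaussianReal 0 1)).measurable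

/-- the kernel integral -/
noncomputable def JJ (β : ℝ) (ζ w a : ℝ → ℝ) (g : ℝ → ℝ → ℝ) (t x : ℝ) : ℝ :=
  ∫ u in (0 : ℝ)..1, a u * (zt ζ (t + u ^ 2) * IN β w g t x u)

lemma JJ_int {β C : ℝ} {ζ w a : ℝ → ℝ} (hζ : IsCdf ζ) (hw : Wt w) (ha : Continuous a)
    {g : ℝ → ℝ → ℝ} (hg : BC C g) (t x : ℝ) :
    IntervalIntegrable (fun u => a u * (zt ζ (t + u ^ 2) * IN β w g t x u)) volume 0 1 := by
  have hm : Measurable (fun u => a u * (zt ζ (t + u ^ 2) * IN β w g t x u)) :=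
    ha.measurable.mul (((zt_meas hζ).comp (by fun_prop)).mul (IN_meas hw hg t x))
  have hb : IntervalIntegrable (fun u => |a u| * C) volume 0 1 :=
    (ha.abs.mul continuous_const).intervalIntegrable 0 1
  refine hb.mono_fun' hm.aestronglyMeasurable ?_
  refine Eventually.of_forall fun u => ?_
  show ‖a u * (zt ζ (t + u ^ 2) * IN β w g t x u)‖ ≤ |a u| * C
  rw [norm_mul, norm_mul]
  refine mul_le_mul_of_nonneg_left ?_ (abs_nonneg _)
  have h1 := zt_bd hζ (t + u ^ 2)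
  have h2 := IN_bd (β := β) hw t x u (fun y => hg.2 (t + u ^ 2) y)
  have h3 : (0 : ℝ) ≤ C := (abs_nonneg _).trans (hg.2 0 0)
  calc ‖zt ζ (t + u ^ 2)‖ * ‖IN β w g t x u‖ ≤ 1 * C :=
        mul_le_mul h1 h2 (norm_nonneg _) zero_le_one
    _ = C := one_mul C

/-- the small constant -/
noncomputable def kap (l : ℝ) : ℝ := ∫ u in (0 : ℝ)..1, Real.exp (-l * u ^ 2)

lemma kap_le {l : ℝ} (hl : 0 < l) : kap l ≤ √(Real.pi / l) / 2 := by
  unfold kap
  rw [intervalIntegral.integral_of_le zero_le_one, ← integral_gaussian_Ioi l]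
  apply setIntegral_mono_set
  · exact (integrable_exp_neg_mul_sq hl).integrableOn
  · exact Eventually.of_forall fun u => (Real.exp_pos _).le
  · exact Ioc_subset_Ioi_self.eventuallyLE

lemma kap_small (ε : ℝ) (hε : 0 < ε) : ∃ l : ℝ, 0 < l ∧ kap l ≤ ε := by
  refine ⟨Real.pi / ε ^ 2, div_pos Real.pi_pos (by positivity), ?_⟩
  refine (kap_le (div_pos Real.pi_pos (by positivity))).trans ?_
  have e : Real.pi / (Real.pi / ε ^ 2) = ε ^ 2 := by
    field_simp
  rw [e, Real.sqrt_sq hε.le]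
  linarith

lemma kap_nonneg (l : ℝ) : 0 ≤ kap l :=
  intervalIntegral.integral_nonneg zero_le_one fun _ _ => (Real.exp_pos _).le

/-- the main estimate -/
lemma JJ_sub {β C C' A D l : ℝ} {ζ w a : ℝ → ℝ} (hζ : IsCdf ζ) (hw : Wt w) (ha : Continuous a)
    (hA : ∀ u ∈ Icc (0 : ℝ) 1, |a u| ≤ A) {g g' : ℝ → ℝ → ℝ} (hg : BC C g) (hg' : BC C' g')
    (hD : 0 ≤ D)
    (h : ∀ t ∈ Icc (0 : ℝ) 1, ∀ x, |g t x - g' t x| ≤ Real.exp (l * (1 - t)) * D)
    {t : ℝ} (ht : t ∈ Icc (0 : ℝ) 1) (x : ℝ) :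
    |JJ β ζ w a g t x - JJ β ζ w a g' t x| ≤ A * kap l * (Real.exp (l * (1 - t)) * D) := by
  unfold JJ
  rw [← intervalIntegral.integral_sub (JJ_int hζ hw ha hg t x) (JJ_int hζ hw ha hg' t x)]
  have hA0 : 0 ≤ A := (abs_nonneg _).trans (hA 0 ⟨le_rfl, zero_le_one⟩)
  have hb : IntervalIntegrable (fun u : ℝ => A * (Real.exp (l * (1 - t)) * D) *
      Real.exp (-l * u ^ 2)) volume 0 1 :=
    (Continuous.intervalIntegrable (by fun_prop) 0 1)
  have h1 := intervalIntegral.norm_integral_le_of_norm_le (zero_le_one' ℝ)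
    (f := fun u => a u * (zt ζ (t + u ^ 2) * IN β w g t x u) -
      a u * (zt ζ (t + u ^ 2) * IN β w g' t x u))
    (g := fun u : ℝ => A * (Real.exp (l * (1 - t)) * D) * Real.exp (-l * u ^ 2)) ?_ hb
  · rw [intervalIntegral.integral_const_mul] at h1
    refine h1.trans (le_of_eq ?_)
    unfold kap
    ring
  · refine Eventually.of_forall fun u hu => ?_
    have hu' : u ∈ Icc (0 : ℝ) 1 := ⟨hu.1.le, hu.2⟩
    have e : a u * (zt ζ (t + u ^ 2) * IN β w g t x u) -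
        a u * (zt ζ (t + u ^ 2) * IN β w g' t x u) =
        a u * (zt ζ (t + u ^ 2) * (IN β w g t x u - IN β w g' t x u)) := by ring
    rw [e, IN_sub hw hg hg' t x u]
    by_cases hs : 1 < t + u ^ 2
    · rw [zt_zero hs, zero_mul, mul_zero, norm_zero]
      positivity
    · have hs' : t + u ^ 2 ∈ Icc (0 : ℝ) 1 := ⟨by nlinarith [ht.1, sq_nonneg u], not_lt.1 hs⟩
      have h2 := IN_bd (β := β) (g := fun s y => g s y - g' s y) hw t x u
        (fun y => h _ hs' y)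
      have h3 := zt_bd hζ (t + u ^ 2)
      have h4 : Real.exp (l * (1 - (t + u ^ 2))) = Real.exp (l * (1 - t)) *
          Real.exp (-l * u ^ 2) := by
        rw [← Real.exp_add]; congr 1; ring
      rw [norm_mul, norm_mul]
      calc ‖a u‖ * (‖zt ζ (t + u ^ 2)‖ * ‖IN β w (fun s y => g s y - g' s y) t x u‖)
          ≤ A * (1 * (Real.exp (l * (1 - (t + u ^ 2))) * D)) := by
            refine mul_le_mul (hA u hu') (mul_le_mul h3 h2 (norm_nonneg _) zero_le_one)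
              (by positivity) hA0
        _ = _ := by rw [h4]; ring

lemma SP_eq (β : ℝ) (ζ : ℝ → ℝ) (g : ℝ → ℝ → ℝ) (t x : ℝ) :
    SP β ζ g t x = β ^ 2 * JJ β ζ (fun _ => 1) (fun u => 2 * u) g t x := by
  unfold SP JJ IN
  simp only [one_mul]

lemma SD_eq (β : ℝ) (ζ : ℝ → ℝ) (g : ℝ → ℝ → ℝ) (t x : ℝ) :
    SD β ζ g t x = β ^ 2 * JJ β ζ (fun y => y) (fun _ => 2 / √(2 * β ^ 2)) g t x := rfl

lemma SP_sub {β C C' D l : ℝ} {ζ : ℝ → ℝ} (hζ : IsCdf ζ) {g g' : ℝ → ℝ → ℝ} (hg : BC C g)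
    (hg' : BC C' g') (hD : 0 ≤ D)
    (h : ∀ t ∈ Icc (0 : ℝ) 1, ∀ x, |g t x - g' t x| ≤ Real.exp (l * (1 - t)) * D)
    {t : ℝ} (ht : t ∈ Icc (0 : ℝ) 1) (x : ℝ) :
    |SP β ζ g t x - SP β ζ g' t x| ≤ β ^ 2 * (2 * kap l * (Real.exp (l * (1 - t)) * D)) := by
  rw [SP_eq, SP_eq, ← mul_sub, abs_mul, abs_of_nonneg (sq_nonneg β)]
  refine mul_le_mul_of_nonneg_left ?_ (sq_nonneg β)
  refine JJ_sub hζ wt_one (by fun_prop) (fun u hu => ?_) hg hg' hD h ht x
  rw [abs_of_nonneg (by linarith [hu.1])]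
  linarith [hu.2]

lemma SD_sub {β C C' D l : ℝ} (hβ : 0 < β) {ζ : ℝ → ℝ} (hζ : IsCdf ζ) {g g' : ℝ → ℝ → ℝ}
    (hg : BC C g) (hg' : BC C' g') (hD : 0 ≤ D)
    (h : ∀ t ∈ Icc (0 : ℝ) 1, ∀ x, |g t x - g' t x| ≤ Real.exp (l * (1 - t)) * D)
    {t : ℝ} (ht : t ∈ Icc (0 : ℝ) 1) (x : ℝ) :
    |SD β ζ g t x - SD β ζ g' t x| ≤ 2 * β * (kap l * (Real.exp (l * (1 - t)) * D)) := by
  rw [SD_eq, SD_eq, ← mul_sub, abs_mul, abs_of_nonneg (sq_nonneg β)]
  have h1 : β ≤ √(2 * β ^ 2) := by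
    apply Real.le_sqrt_of_sq_le
    nlinarith
  have h2 : (2 : ℝ) / √(2 * β ^ 2) ≤ 2 / β := by gcongr
  have h3 := JJ_sub (β := β) hζ wt_id (continuous_const (y := 2 / √(2 * β ^ 2)))
    (A := 2 / β) (fun u hu => by rw [abs_of_nonneg (by positivity)]; exact h2) hg hg' hD h ht x
  calc β ^ 2 * |JJ β ζ (fun y => y) (fun _ => 2 / √(2 * β ^ 2)) g t x -
        JJ β ζ (fun y => y) (fun _ => 2 / √(2 * β ^ 2)) g' t x|
      ≤ β ^ 2 * (2 / β * kap l * (Real.exp (l * (1 - t)) * D)) :=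
        mul_le_mul_of_nonneg_left h3 (sq_nonneg β)
    _ = _ := by field_simp

/-! ### The fixed point -/

lemma ck_mem (t : ℝ) : ck t ∈ Icc (0 : ℝ) 1 :=
  ⟨le_max_left _ _, max_le zero_le_one (min_le_right _ _)⟩

lemma ck_of_mem {t : ℝ} (ht : t ∈ Icc (0 : ℝ) 1) : ck t = t := by
  unfold ck
  rw [min_eq_left ht.2, max_eq_right ht.1]

lemma ck_cont : Continuous ck := by unfold ck; fun_prop

lemma cl_cont (M : ℝ) : Continuous (cl M) := by unfold cl; fun_prop

lemma cl_bd {M : ℝ} (hM : 0 ≤ M) (u : ℝ) : |cl M u| ≤ M := by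
  unfold cl
  rw [abs_le]
  exact ⟨le_max_left _ _, max_le (by linarith) (min_le_right _ _)⟩

lemma cl_le {M : ℝ} (hM : 0 ≤ M) (u : ℝ) : |cl M u| ≤ |u| := by
  unfold cl
  rcases le_total u M with h1 | h1
  · rw [min_eq_left h1]
    rcases le_total (-M) u with h2 | h2
    · rw [max_eq_right h2]
    · rw [max_eq_left h2, abs_neg, abs_of_nonneg hM, abs_of_nonpos (by linarith)]
      linarith
  · rw [min_eq_right h1, max_eq_right (by linarith), abs_of_nonneg hM, abs_of_nonneg (by linarith)]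
    exact h1

lemma cl_lip (M u v : ℝ) : |cl M u - cl M v| ≤ |u - v| := by
  unfold cl
  exact (abs_max_sub_max_le_max _ _ _ _).trans (max_le (by simp)
    ((abs_min_sub_min_le_max _ _ _ _).trans (max_le le_rfl (by simp))))

lemma cl_eq {M u : ℝ} (h : |u| ≤ M) : cl M u = u := by
  rw [abs_le] at h
  unfold cl
  rw [min_eq_left h.2, max_eq_right h.1]

lemma prod_lip {M w w' z z' : ℝ} (hM : 0 ≤ M) :
    |2 * cl 1 w * cl M z - 2 * cl 1 w' * cl M z'| ≤ 2 * M * |w - w'| + 2 * |z - z'| := by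
  have e : 2 * cl 1 w * cl M z - 2 * cl 1 w' * cl M z' =
      2 * ((cl 1 w - cl 1 w') * cl M z) + 2 * (cl 1 w' * (cl M z - cl M z')) := by ring
  rw [e]
  refine (abs_add_le _ _).trans ?_
  rw [abs_mul, abs_mul, abs_mul, abs_mul, abs_two]
  have h1 := cl_lip 1 w w'
  have h2 := cl_bd hM z
  have h3 := cl_bd zero_le_one w'
  have h4 := cl_lip M z z'
  have h5 : |cl 1 w - cl 1 w'| * |cl M z| ≤ |w - w'| * M :=
    mul_le_mul h1 h2 (abs_nonneg _) (abs_nonneg _)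
  have h6 : |cl 1 w'| * |cl M z - cl M z'| ≤ 1 * |z - z'| :=
    mul_le_mul h3 h4 (abs_nonneg _) zero_le_one
  linarith

lemma bc_WW (hC : St_CT) (hP : St_PT) {β C : ℝ} (hβ : 0 < β) {ζ : ℝ → ℝ} (hζ : IsCdf ζ)
    {g : ℝ → ℝ → ℝ} (hg : BC C g) :
    BC (1 + β ^ 2 * C) (fun t x => WW β ζ g (ck t) x) := by
  have h1 := (hC β C ζ g hβ hζ hg).1
  have h2 := (hP β hβ).1
  refine ⟨h2.1.add h1.1, fun t x => ?_⟩
  exact (abs_add_le _ _).trans (add_le_add (h2.2 t x) (h1.2 t x))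

lemma bc_ZZ (hC : St_CT) (hP : St_PT) {β C : ℝ} (hβ : 0 < β) {ζ : ℝ → ℝ} (hζ : IsCdf ζ)
    {g : ℝ → ℝ → ℝ} (hg : BC C g) :
    BC (1 + 2 * β * C) (fun t x => ZZ β ζ g (ck t) x) := by
  have h1 := (hC β C ζ g hβ hζ hg).2
  have h2 := (hP β hβ).2.1
  refine ⟨h2.1.add h1.1, fun t x => ?_⟩
  exact (abs_add_le _ _).trans (add_le_add (h2.2 t x) (h1.2 t x))

/-- the a priori bound -/
lemma apriori (hP : St_PT) {β : ℝ} (hβ : 0 < β) {ζ : ℝ → ℝ} (hζ : IsCdf ζ) {l : ℝ} (hl : 0 < l)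
    (hk : kap l ≤ 1 / (8 * β)) {M C : ℝ} (hM : 0 ≤ M) {g : ℝ → ℝ → ℝ} (hg : BC C g)
    (hfix : ∀ t x, g t x = 2 * cl 1 (WW β ζ g (ck t) x) * cl M (ZZ β ζ g (ck t) x)) (t x : ℝ) :
    |ZZ β ζ g (ck t) x| ≤ 1 + Real.exp l := by
  have hk' : 8 * β * kap l ≤ 1 := by
    rw [le_div_iff₀ (by positivity)] at hk
    linarith
  have hkn := kap_nonneg l
  have hC0 : 0 ≤ C := (abs_nonneg _).trans (hg.2 0 0)
  have hexp : ∀ t, Real.exp (-(l * (1 - ck t))) ≤ 1 := by
    intro t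
    rw [Real.exp_le_one_iff]
    have := (ck_mem t).2
    nlinarith
  have hexp' : ∀ t, Real.exp (l * (1 - ck t)) ≤ Real.exp l := by
    intro t
    apply Real.exp_le_exp.2
    have := (ck_mem t).1
    nlinarith
  let hb : BoundedContinuousFunction (ℝ × ℝ) ℝ := BoundedContinuousFunction.ofNormedAddCommGroup
    (fun p : ℝ × ℝ => Real.exp (-(l * (1 - ck p.1))) * g p.1 p.2)
    ((Real.continuous_exp.comp
      ((continuous_const.mul (continuous_const.sub (ck_cont.comp continuous_fst))).neg)).mul hg.1)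
    C (by
      intro p
      rw [norm_mul, Real.norm_eq_abs, Real.norm_eq_abs, abs_of_pos (Real.exp_pos _)]
      calc Real.exp (-(l * (1 - ck p.1))) * |g p.1 p.2| ≤ 1 * C :=
            mul_le_mul (hexp p.1) (hg.2 _ _) (abs_nonneg _) zero_le_one
        _ = C := one_mul C)
  obtain ⟨N, hN⟩ : ∃ N, N = ‖hb‖ := ⟨_, rfl⟩
  have hN0 : 0 ≤ N := by rw [hN]; exact norm_nonneg _
  have hgN : ∀ t x, |g t x| ≤ Real.exp (l * (1 - ck t)) * N := by
    intro t x
    have h1 : ‖hb (t, x)‖ ≤ ‖hb‖ := hb.norm_coe_le_norm (t, x)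
    have h2 : hb (t, x) = Real.exp (-(l * (1 - ck t))) * g t x := rfl
    rw [h2, norm_mul, Real.norm_eq_abs, Real.norm_eq_abs, abs_of_pos (Real.exp_pos _), ← hN] at h1
    have h3 : Real.exp (l * (1 - ck t)) * Real.exp (-(l * (1 - ck t))) = 1 := by
      rw [← Real.exp_add]; simp
    calc |g t x| = Real.exp (l * (1 - ck t)) * (Real.exp (-(l * (1 - ck t))) * |g t x|) := by
          rw [← mul_assoc, h3, one_mul]
      _ ≤ _ := mul_le_mul_of_nonneg_left h1 (Real.exp_pos _).le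
  have hz : ∀ t x, |ZZ β ζ g (ck t) x| ≤
      1 + 2 * β * (kap l * (Real.exp (l * (1 - ck t)) * N)) := by
    intro t x
    have h0 : BC 0 (fun _ _ : ℝ => (0 : ℝ)) := ⟨continuous_const, fun _ _ => by simp⟩
    have h1 := SD_sub (l := l) hβ hζ hg h0 hN0 (fun t ht x => by
      have := hgN t x
      rw [ck_of_mem ht] at this
      simpa using this) (ck_mem t) x
    have h2 : SD β ζ (fun _ _ : ℝ => (0 : ℝ)) (ck t) x = 0 := by
      simp [SD, E1]
    rw [h2, sub_zero] at h1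
    have h3 := (hP β hβ).2.1.2 t x
    exact (abs_add_le _ _).trans (add_le_add h3 h1)
  have hN4 : N ≤ 4 := by
    have h1 : ‖hb‖ ≤ 2 + N / 2 := by
      rw [BoundedContinuousFunction.norm_le (by positivity)]
      rintro ⟨t, x⟩
      have h2 : hb (t, x) = Real.exp (-(l * (1 - ck t))) * g t x := rfl
      rw [h2, norm_mul, Real.norm_eq_abs, Real.norm_eq_abs, abs_of_pos (Real.exp_pos _)]
      have h4 : |g t x| ≤ 2 * |ZZ β ζ g (ck t) x| := by
        rw [hfix t x, abs_mul, abs_mul, abs_two]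
        have h5 := cl_bd zero_le_one (WW β ζ g (ck t) x)
        have h6 := cl_le hM (ZZ β ζ g (ck t) x)
        have h7 : |cl 1 (WW β ζ g (ck t) x)| * |cl M (ZZ β ζ g (ck t) x)| ≤
            1 * |ZZ β ζ g (ck t) x| := mul_le_mul h5 h6 (abs_nonneg _) zero_le_one
        linarith
      have h8 := hz t x
      have h9 : Real.exp (-(l * (1 - ck t))) * Real.exp (l * (1 - ck t)) = 1 := by
        rw [← Real.exp_add]; simp
      have h10 := hexp t
      have h11 := Real.exp_pos (-(l * (1 - ck t)))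
      calc Real.exp (-(l * (1 - ck t))) * |g t x|
          ≤ Real.exp (-(l * (1 - ck t))) *
            (2 * (1 + 2 * β * (kap l * (Real.exp (l * (1 - ck t)) * N)))) := by
            gcongr
            linarith
        _ = 2 * Real.exp (-(l * (1 - ck t))) + 4 * β * kap l * N *
            (Real.exp (-(l * (1 - ck t))) * Real.exp (l * (1 - ck t))) := by ring
        _ ≤ 2 + N / 2 := by
            rw [h9]
            nlinarith
    rw [← hN] at h1
    linarith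
  refine (hz t x).trans ?_
  have h1 := hexp' t
  have h2 : Real.exp (l * (1 - ck t)) * N ≤ Real.exp l * 4 :=
    mul_le_mul h1 hN4 hN0 (Real.exp_pos _).le
  have h3 : 2 * β * (kap l * (Real.exp (l * (1 - ck t)) * N)) ≤
      2 * β * (kap l * (Real.exp l * 4)) := by gcongr
  have h4 : 2 * β * (kap l * (Real.exp l * 4)) = 8 * β * kap l * Real.exp l := by ring
  have h5 := Real.exp_pos l
  nlinarith

/-- the weighted function -/
noncomputable def gg (l : ℝ) (h : BoundedContinuousFunction (ℝ × ℝ) ℝ) (t x : ℝ) : ℝ :=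
  Real.exp (l * (1 - ck t)) * h (t, x)

lemma gg_bc {l : ℝ} (hl : 0 < l) (h : BoundedContinuousFunction (ℝ × ℝ) ℝ) :
    BC (Real.exp l * ‖h‖) (gg l h) := by
  refine ⟨?_, fun t x => ?_⟩
  · exact (Real.continuous_exp.comp
      (continuous_const.mul (continuous_const.sub (ck_cont.comp continuous_fst)))).mul
      h.continuous
  · unfold gg
    rw [abs_mul, abs_of_pos (Real.exp_pos _)]
    refine mul_le_mul (Real.exp_le_exp.2 ?_) (h.norm_coe_le_norm (t, x)) (abs_nonneg _)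
      (Real.exp_pos _).le
    have := (ck_mem t).1
    nlinarith

/-- the map -/
noncomputable def Psi (hC : St_CT) (hP : St_PT) {β : ℝ} (hβ : 0 < β) {ζ : ℝ → ℝ} (hζ : IsCdf ζ)
    {l : ℝ} (hl : 0 < l) {M : ℝ} (hM : 0 ≤ M) (h : BoundedContinuousFunction (ℝ × ℝ) ℝ) :
    BoundedContinuousFunction (ℝ × ℝ) ℝ :=
  BoundedContinuousFunction.ofNormedAddCommGroup
    (fun p : ℝ × ℝ => Real.exp (-(l * (1 - ck p.1))) *
      (2 * cl 1 (WW β ζ (gg l h) (ck p.1) p.2) * cl M (ZZ β ζ (gg l h) (ck p.1) p.2)))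
    ((Real.continuous_exp.comp
      ((continuous_const.mul (continuous_const.sub (ck_cont.comp continuous_fst))).neg)).mul
      ((continuous_const.mul ((cl_cont 1).comp (bc_WW hC hP hβ hζ (gg_bc hl h)).1)).mul
        ((cl_cont M).comp (bc_ZZ hC hP hβ hζ (gg_bc hl h)).1)))
    (2 * M) (by
      intro p
      rw [norm_mul, Real.norm_eq_abs, Real.norm_eq_abs, abs_of_pos (Real.exp_pos _), abs_mul,
        abs_mul, abs_two]
      have h1 : Real.exp (-(l * (1 - ck p.1))) ≤ 1 := by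
        rw [Real.exp_le_one_iff]
        have := (ck_mem p.1).2
        nlinarith
      have h2 := cl_bd zero_le_one (WW β ζ (gg l h) (ck p.1) p.2)
      have h3 := cl_bd hM (ZZ β ζ (gg l h) (ck p.1) p.2)
      have h4 : |cl 1 (WW β ζ (gg l h) (ck p.1) p.2)| * |cl M (ZZ β ζ (gg l h) (ck p.1) p.2)| ≤
          1 * M := mul_le_mul h2 h3 (abs_nonneg _) zero_le_one
      calc Real.exp (-(l * (1 - ck p.1))) * (2 * |cl 1 (WW β ζ (gg l h) (ck p.1) p.2)| *
            |cl M (ZZ β ζ (gg l h) (ck p.1) p.2)|)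
          ≤ 1 * (2 * M) := by
            refine mul_le_mul h1 (by linarith) (by positivity) zero_le_one
        _ = 2 * M := one_mul _)

lemma Psi_lip (hC : St_CT) (hP : St_PT) {β : ℝ} (hβ : 0 < β) {ζ : ℝ → ℝ} (hζ : IsCdf ζ)
    {l : ℝ} (hl : 0 < l) {M : ℝ} (hM : 0 ≤ M) (hk : (4 * M * β ^ 2 + 4 * β) * kap l ≤ 1 / 2)
    (h h' : BoundedContinuousFunction (ℝ × ℝ) ℝ) :
    dist (Psi hC hP hβ hζ hl hM h) (Psi hC hP hβ hζ hl hM h') ≤ 1 / 2 * dist h h' := by
  rw [BoundedContinuousFunction.dist_le (by positivity)]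
  rintro ⟨t, x⟩
  obtain ⟨D, hD⟩ : ∃ D, D = dist h h' := ⟨_, rfl⟩
  have hD0 : 0 ≤ D := by rw [hD]; exact dist_nonneg
  have hd : ∀ s ∈ Icc (0 : ℝ) 1, ∀ y, |gg l h s y - gg l h' s y| ≤ Real.exp (l * (1 - s)) * D := by
    intro s hs y
    unfold gg
    rw [ck_of_mem hs, ← mul_sub, abs_mul, abs_of_pos (Real.exp_pos _), hD]
    have hds : |h (s, y) - h' (s, y)| ≤ dist h h' := by
      rw [← Real.dist_eq]
      exact BoundedContinuousFunction.dist_coe_le_dist (s, y)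
    exact mul_le_mul_of_nonneg_left hds (Real.exp_pos _).le
  have h1 := SP_sub (β := β) hζ (gg_bc hl h) (gg_bc hl h') hD0 hd (ck_mem t) x
  have h2 := SD_sub hβ hζ (gg_bc hl h) (gg_bc hl h') hD0 hd (ck_mem t) x
  have h3 : |WW β ζ (gg l h) (ck t) x - WW β ζ (gg l h') (ck t) x| ≤
      β ^ 2 * (2 * kap l * (Real.exp (l * (1 - ck t)) * D)) := by
    unfold WW
    rw [add_sub_add_left_eq_sub]
    exact h1
  have h4 : |ZZ β ζ (gg l h) (ck t) x - ZZ β ζ (gg l h') (ck t) x| ≤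
      2 * β * (kap l * (Real.exp (l * (1 - ck t)) * D)) := by
    unfold ZZ
    rw [add_sub_add_left_eq_sub]
    exact h2
  have h5 := prod_lip (w := WW β ζ (gg l h) (ck t) x) (w' := WW β ζ (gg l h') (ck t) x)
    (z := ZZ β ζ (gg l h) (ck t) x) (z' := ZZ β ζ (gg l h') (ck t) x) hM
  have h9 : Real.exp (-(l * (1 - ck t))) * Real.exp (l * (1 - ck t)) = 1 := by
    rw [← Real.exp_add]; simp
  have e : dist (Psi hC hP hβ hζ hl hM h (t, x)) (Psi hC hP hβ hζ hl hM h' (t, x)) =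
      Real.exp (-(l * (1 - ck t))) *
      |2 * cl 1 (WW β ζ (gg l h) (ck t) x) * cl M (ZZ β ζ (gg l h) (ck t) x) -
        2 * cl 1 (WW β ζ (gg l h') (ck t) x) * cl M (ZZ β ζ (gg l h') (ck t) x)| := by
    have e1 : Real.exp (-(l * (1 - ck t))) = |Real.exp (-(l * (1 - ck t)))| :=
      (abs_of_pos (Real.exp_pos _)).symm
    have e2 : ∀ a b : ℝ, Real.exp (-(l * (1 - ck t))) * |a - b| =
        |Real.exp (-(l * (1 - ck t))) * a - Real.exp (-(l * (1 - ck t))) * b| := by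
      intro a b
      rw [← mul_sub, abs_mul, ← e1]
    rw [e2]
    rfl
  rw [e, ← hD]
  calc Real.exp (-(l * (1 - ck t))) *
      |2 * cl 1 (WW β ζ (gg l h) (ck t) x) * cl M (ZZ β ζ (gg l h) (ck t) x) -
        2 * cl 1 (WW β ζ (gg l h') (ck t) x) * cl M (ZZ β ζ (gg l h') (ck t) x)|
      ≤ Real.exp (-(l * (1 - ck t))) *
        (2 * M * (β ^ 2 * (2 * kap l * (Real.exp (l * (1 - ck t)) * D))) +
          2 * (2 * β * (kap l * (Real.exp (l * (1 - ck t)) * D)))) := by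
        refine mul_le_mul_of_nonneg_left (h5.trans ?_) (Real.exp_pos _).le
        gcongr
    _ = (4 * M * β ^ 2 + 4 * β) * kap l * D *
        (Real.exp (-(l * (1 - ck t))) * Real.exp (l * (1 - ck t))) := by ring
    _ ≤ 1 / 2 * D := by
        rw [h9, mul_one]
        exact mul_le_mul_of_nonneg_right hk hD0

theorem t_FP (hC : St_CT) (hP : St_PT) : St_FP := by
  intro β ζ hβ hζ
  obtain ⟨l₀, hl₀, hk₀⟩ := kap_small (1 / (8 * β)) (by positivity)
  obtain ⟨M, hM⟩ : ∃ M, M = 1 + Real.exp l₀ := ⟨_, rfl⟩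
  have hM0 : 0 ≤ M := by rw [hM]; positivity
  obtain ⟨l, hl, hk⟩ := kap_small (1 / (2 * (4 * M * β ^ 2 + 4 * β))) (by positivity)
  have hk' : (4 * M * β ^ 2 + 4 * β) * kap l ≤ 1 / 2 := by
    rw [le_div_iff₀ (by positivity)] at hk
    linarith
  have hcon : ContractingWith (1 / 2 : NNReal) (Psi hC hP hβ hζ hl hM0) := by
    refine ⟨by norm_num, LipschitzWith.of_dist_le_mul fun h h' => ?_⟩
    have := Psi_lip hC hP hβ hζ hl hM0 hk' h h'
    simpa using this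
  obtain ⟨h, hh⟩ : ∃ h, Psi hC hP hβ hζ hl hM0 h = h :=
    ⟨_, hcon.fixedPoint_isFixedPt⟩
  have hfix : ∀ t x, gg l h t x =
      2 * cl 1 (WW β ζ (gg l h) (ck t) x) * cl M (ZZ β ζ (gg l h) (ck t) x) := by
    intro t x
    have h1 : h (t, x) = Real.exp (-(l * (1 - ck t))) *
        (2 * cl 1 (WW β ζ (gg l h) (ck t) x) * cl M (ZZ β ζ (gg l h) (ck t) x)) := by
      conv_lhs => rw [← hh]
      rfl
    have h9 : Real.exp (l * (1 - ck t)) * Real.exp (-(l * (1 - ck t))) = 1 := by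
      rw [← Real.exp_add]; simp
    calc gg l h t x = Real.exp (l * (1 - ck t)) * h (t, x) := rfl
      _ = Real.exp (l * (1 - ck t)) * Real.exp (-(l * (1 - ck t))) *
          (2 * cl 1 (WW β ζ (gg l h) (ck t) x) * cl M (ZZ β ζ (gg l h) (ck t) x)) := by
          rw [h1]; ring
      _ = _ := by rw [h9, one_mul]
  refine ⟨Real.exp l * ‖h‖, gg l h, gg_bc hl h, fun t x => ?_⟩
  have h2 := apriori hP hβ hζ hl₀ hk₀ hM0 (gg_bc hl h) hfix t x
  rw [← hM] at h2
  rw [hfix t x, cl_eq h2]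

end Pool.Agent.TH738.AT
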